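import Mathlib

/-!
Tools for 2-adic integrality of power series with rational coefficients.
-/

namespace Pool.Agent.Hyper2

open PowerSeries

/-- The subring of rational numbers with odd denominator. -/
def R : Subring ℚ where
  carrier := {x | Odd x.den}
  mul_mem' := by
    intro x y hx hy
    exact Odd.of_dvd_nat (Nat.odd_mul.2 ⟨hx, hy⟩) (Rat.mul_den_dvd x y)
  one_mem' := by simp
  add_mem' := by
    intro x y hx hy
    exact Odd.of_dvd_nat (Nat.odd_mul.2 ⟨hx, hy⟩) (Rat.add_den_dvd x y)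
  zero_mem' := by simp
  neg_mem' := by
    intro x hx
    simpa using hx

theorem mem_R {x : ℚ} : x ∈ R ↔ Odd x.den := Iff.rfl

theorem int_mem (m : ℤ) : (m : ℚ) ∈ R := by
  rw [mem_R]; simp

theorem nat_mem (m : ℕ) : (m : ℚ) ∈ R := by
  rw [mem_R]; simp

theorem div_mem {m k : ℤ} (hk : Odd k) : (m : ℚ) / (k : ℚ) ∈ R := by
  rw [mem_R]
  have h := Rat.den_dvd m k
  have h2 : (((m : ℚ) / (k : ℚ)).den : ℤ) ∣ k := by simpa [Rat.divInt_eq_div] using h
  have h3 : (((m : ℚ) / (k : ℚ)).den) ∣ k.natAbs := by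
    have := Int.natAbs_dvd_natAbs.2 h2
    simpa using this
  exact Odd.of_dvd_nat (Int.natAbs_odd.2 hk) h3

/-- The subring of power series with all coefficients in `R`. -/
def I : Subring ℚ⟦X⟧ where
  carrier := {f | ∀ n, coeff n f ∈ R}
  mul_mem' := by
    intro f g hf hg n
    rw [coeff_mul]
    exact R.sum_mem fun i _ => R.mul_mem (hf _) (hg _)
  one_mem' := by
    intro n
    rw [coeff_one]
    split_ifs
    · exact R.one_mem
    · exact R.zero_mem
  add_mem' := by
    intro f g hf hg n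
    rw [map_add]
    exact R.add_mem (hf n) (hg n)
  zero_mem' := by
    intro n
    rw [map_zero]
    exact R.zero_mem
  neg_mem' := by
    intro f hf n
    rw [map_neg]
    exact R.neg_mem (hf n)

theorem mem_I {f : ℚ⟦X⟧} : f ∈ I ↔ ∀ n, coeff n f ∈ R := Iff.rfl

theorem X_mem : (X : ℚ⟦X⟧) ∈ I := by
  intro n
  rw [coeff_X]
  split_ifs
  · exact R.one_mem
  · exact R.zero_mem

theorem C_mem {c : ℚ} (hc : c ∈ R) : (C c : ℚ⟦X⟧) ∈ I := by
  intro n
  rw [coeff_C]
  split_ifs
  · exact hc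
  · exact R.zero_mem

/-- The inverse of a series in `I` with constant coefficient `1` lies in `I`. -/
theorem inv_mem {f : ℚ⟦X⟧} (hf : f ∈ I) (h1 : constantCoeff f = 1) : f⁻¹ ∈ I := by
  intro n
  induction n using Nat.strong_induction_on with
  | _ n ih =>
    rw [coeff_inv]
    split_ifs with h0
    · rw [h1]; simp
    · rw [h1]
      simp only [inv_one, neg_mul, one_mul]
      refine R.neg_mem (R.sum_mem fun i _ => ?_)
      split_ifs with hlt
      · exact R.mul_mem (hf _) (ih _ hlt)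
      · exact R.zero_mem

/-- Equivalence of series with constant coefficient `1` modulo units of `I`. -/
def E (f g : ℚ⟦X⟧) : Prop := f * g⁻¹ ∈ I

theorem E.symm {f g : ℚ⟦X⟧} (hf : constantCoeff f = 1) (hg : constantCoeff g = 1)
    (h : E f g) : E g f := by
  unfold E at *
  have h2 : g * f⁻¹ = (f * g⁻¹)⁻¹ := by
    rw [PowerSeries.mul_inv_rev]
    congr 1
    symm
    rw [PowerSeries.inv_eq_iff_mul_eq_one]
    · exact PowerSeries.mul_inv_cancel _ (by rw [hg]; exact one_ne_zero)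
    · rw [constantCoeff_inv, hg]; simp
  rw [h2]
  refine inv_mem h ?_
  rw [map_mul, constantCoeff_inv, hf, hg]
  simp

theorem E.trans {f g h : ℚ⟦X⟧} (hg : constantCoeff g = 1) (h1 : E f g) (h2 : E g h) :
    E f h := by
  unfold E at *
  have : f * h⁻¹ = (f * g⁻¹) * (g * h⁻¹) := by
    have hgg : g⁻¹ * g = 1 := PowerSeries.inv_mul_cancel _ (by rw [hg]; exact one_ne_zero)
    calc f * h⁻¹ = f * 1 * h⁻¹ := by ring
      _ = f * (g⁻¹ * g) * h⁻¹ := by rw [hgg]
      _ = _ := by ring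
  rw [this]
  exact I.mul_mem h1 h2

/-! ### The hypergeometric series with parameters `A/4, B/4; C/2` at `4t` -/

/-- coefficients -/
noncomputable def h (A B C : ℕ) (n : ℕ) : ℚ :=
  ∏ k ∈ Finset.range n, ((A + 4 * k : ℚ) * (B + 4 * k) / ((C + 2 * k) * (2 * (k + 1))))

noncomputable def H (A B C : ℕ) : ℚ⟦X⟧ := PowerSeries.mk (h A B C)

theorem h_zero (A B C : ℕ) : h A B C 0 = 1 := by simp [h]

theorem h_succ (A B C n : ℕ) : h A B C (n + 1) =
    h A B C n * ((A + 4 * n : ℚ) * (B + 4 * n) / ((C + 2 * n) * (2 * (n + 1)))) := by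
  unfold h; rw [Finset.prod_range_succ]

theorem h_comm (A B C n : ℕ) : h A B C n = h B A C n := by
  unfold h
  refine Finset.prod_congr rfl fun k _ => ?_
  rw [mul_comm (A + 4 * k : ℚ)]

theorem H_comm (A B C : ℕ) : H A B C = H B A C := by
  unfold H; ext n; simp [h_comm A B C]

theorem H_const (A B C : ℕ) : constantCoeff (H A B C) = 1 := by
  unfold H
  rw [← coeff_zero_eq_constantCoeff_apply, coeff_mk, h_zero]

theorem pos1 (A : ℕ) (n : ℕ) (hA : 0 < A) : (0 : ℚ) < A + 4 * n := by positivity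
theorem pos2 (A : ℕ) (n : ℕ) (hA : 0 < A) : (0 : ℚ) < A + 2 * n := by positivity

theorem shiftA {A : ℕ} (B : ℕ) {C : ℕ} (hA : 0 < A) (hC : 0 < C) (n : ℕ) :
    h (A + 4) B C n * A = h A B C n * (A + 4 * n) := by
  induction n with
  | zero => simp [h_zero]
  | succ n ih =>
    rw [h_succ, h_succ]
    have hA' := (pos1 A n hA).ne'
    have hC' := (pos2 C n hC).ne'
    have hn : (n : ℚ) + 1 ≠ 0 := by positivity
    have e : h (A + 4) B C n = h A B C n * (A + 4 * n) / A := by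
      rw [eq_div_iff (by positivity), ih]
    rw [e]
    push_cast
    have hA0 : (A : ℚ) ≠ 0 := by positivity
    field_simp
    ring

theorem shiftB (A : ℕ) {B C : ℕ} (hB : 0 < B) (hC : 0 < C) (n : ℕ) :
    h A (B + 4) C n * B = h A B C n * (B + 4 * n) := by
  rw [h_comm A (B + 4), h_comm A B]
  exact shiftA A hB hC n

theorem shiftC (A B : ℕ) {C : ℕ} (hC : 0 < C) (n : ℕ) :
    h A B (C + 2) n * (C + 2 * n) = h A B C n * C := by
  induction n with
  | zero => simp [h_zero]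
  | succ n ih =>
    rw [h_succ, h_succ]
    have hC' := (pos2 C n hC).ne'
    have hC2 : (C : ℚ) + 2 * (n + 1) ≠ 0 := by positivity
    have hC3 : (C : ℚ) + 2 + 2 * n ≠ 0 := by positivity
    have hn : (n : ℚ) + 1 ≠ 0 := by positivity
    have e : h A B (C + 2) n = h A B C n * C / (C + 2 * n) := by
      rw [eq_div_iff (by positivity), ih]
    rw [e]
    push_cast
    field_simp
    ring

/-- the coefficient in the first contiguous relation -/
noncomputable def κ (A B C : ℕ) : ℚ := (A * (2 * C - B) : ℚ) / (C * (C + 2))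

noncomputable def κ' (A B C : ℕ) : ℚ := (A * B : ℚ) / (C * (C + 2))

theorem rel1 {A B C' : ℕ} (hA : 0 < A) (hB : 0 < B) (hC : 0 < C') :
    H A B C' = H A (B + 4) (C' + 2) - C (κ A B C') * (X * H (A + 4) (B + 4) (C' + 4)) := by
  ext n
  cases n with
  | zero =>
    rw [map_sub, coeff_C_mul, coeff_zero_X_mul]
    simp [H, h_zero]
  | succ n =>
    rw [map_sub, coeff_C_mul, coeff_succ_X_mul]
    unfold H
    rw [coeff_mk, coeff_mk, coeff_mk]
    have hA0 : (A : ℚ) ≠ 0 := by positivity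
    have hB0 : (B : ℚ) ≠ 0 := by positivity
    have hC0 : (C' : ℚ) ≠ 0 := by positivity
    have hC2 : (C' : ℚ) + 2 ≠ 0 := by positivity
    have hC3 : (C' : ℚ) + 2 * n ≠ 0 := by positivity
    have hC4 : (C' : ℚ) + 2 * (n + 1) ≠ 0 := by positivity
    have hC5 : (C' : ℚ) + 2 + 2 * n ≠ 0 := by positivity
    have hn : (n : ℚ) + 1 ≠ 0 := by positivity
    -- express everything through h A B C' n
    have e1 : h A (B + 4) C' n = h A B C' n * (B + 4 * n) / B := by
      rw [eq_div_iff hB0, shiftB A hB hC]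
    have e2 : h (A + 4) (B + 4) C' n = h A B C' n * (B + 4 * n) / B * (A + 4 * n) / A := by
      rw [eq_div_iff hA0, shiftA (B + 4) hA hC, e1]
    have e3 : h (A + 4) (B + 4) (C' + 2) n = h (A + 4) (B + 4) C' n * C' / (C' + 2 * n) := by
      rw [eq_div_iff hC3, shiftC _ _ hC]
    have e4 : h (A + 4) (B + 4) (C' + 4) n =
        h (A + 4) (B + 4) (C' + 2) n * (C' + 2) / (C' + 2 + 2 * n) := by
      have := shiftC (A + 4) (B + 4) (C := C' + 2) (by omega) n
      push_cast at this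
      rw [eq_div_iff hC5, this]
    have e5 : h A (B + 4) (C' + 2) n = h A (B + 4) C' n * C' / (C' + 2 * n) := by
      rw [eq_div_iff hC3, shiftC _ _ hC]
    rw [h_succ, h_succ, e5, e4, e3, e2, e1]
    unfold κ
    push_cast
    field_simp
    ring

theorem rel2 {A B C' : ℕ} (hA : 0 < A) (hB : 0 < B) (hC : 0 < C') :
    H A B (C' + 2) = H A B C' - C (κ' A B C') * (X * H (A + 4) (B + 4) (C' + 4)) := by
  ext n
  cases n with
  | zero =>
    rw [map_sub, coeff_C_mul, coeff_zero_X_mul]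
    simp [H, h_zero]
  | succ n =>
    rw [map_sub, coeff_C_mul, coeff_succ_X_mul]
    unfold H
    rw [coeff_mk, coeff_mk, coeff_mk]
    have hA0 : (A : ℚ) ≠ 0 := by positivity
    have hB0 : (B : ℚ) ≠ 0 := by positivity
    have hC0 : (C' : ℚ) ≠ 0 := by positivity
    have hC2 : (C' : ℚ) + 2 ≠ 0 := by positivity
    have hC3 : (C' : ℚ) + 2 * n ≠ 0 := by positivity
    have hC4 : (C' : ℚ) + 2 * (n + 1) ≠ 0 := by positivity
    have hC5 : (C' : ℚ) + 2 + 2 * n ≠ 0 := by positivity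
    have hn : (n : ℚ) + 1 ≠ 0 := by positivity
    have e1 : h A (B + 4) C' n = h A B C' n * (B + 4 * n) / B := by
      rw [eq_div_iff hB0, shiftB A hB hC]
    have e2 : h (A + 4) (B + 4) C' n = h A B C' n * (B + 4 * n) / B * (A + 4 * n) / A := by
      rw [eq_div_iff hA0, shiftA (B + 4) hA hC, e1]
    have e3 : h (A + 4) (B + 4) (C' + 2) n = h (A + 4) (B + 4) C' n * C' / (C' + 2 * n) := by
      rw [eq_div_iff hC3, shiftC _ _ hC]
    have e4 : h (A + 4) (B + 4) (C' + 4) n =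
        h (A + 4) (B + 4) (C' + 2) n * (C' + 2) / (C' + 2 + 2 * n) := by
      have := shiftC (A + 4) (B + 4) (C := C' + 2) (by omega) n
      push_cast at this
      rw [eq_div_iff hC5, this]
    have e5 : h A B (C' + 2) n = h A B C' n * C' / (C' + 2 * n) := by
      rw [eq_div_iff hC3, shiftC _ _ hC]
    rw [h_succ, h_succ, e5, e4, e3, e2]
    unfold κ'
    push_cast
    field_simp
    ring

theorem κ_mem {A B C : ℕ} (hC : Odd C) : κ A B C ∈ R := by
  have h1 : κ A B C = ((A * (2 * C - B) : ℤ) : ℚ) / ((C * (C + 2) : ℤ) : ℚ) := by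
    unfold κ; push_cast; rfl
  rw [h1]
  refine div_mem ?_
  have h2 : Odd ((C : ℤ)) := by exact_mod_cast hC
  exact Odd.mul h2 (by simpa using h2.add_even (by decide : Even (2 : ℤ)))

theorem κ'_mem {A B C : ℕ} (hC : Odd C) : κ' A B C ∈ R := by
  have h1 : κ' A B C = ((A * B : ℤ) : ℚ) / ((C * (C + 2) : ℤ) : ℚ) := by
    unfold κ'; push_cast; rfl
  rw [h1]
  refine div_mem ?_
  have h2 : Odd ((C : ℤ)) := by exact_mod_cast hC
  exact Odd.mul h2 (by simpa using h2.add_even (by decide : Even (2 : ℤ)))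

/-- The Gauss ratio. -/
noncomputable def ρ (A B C : ℕ) : ℚ⟦X⟧ := H A (B + 4) (C + 2) * (H A B C)⁻¹

theorem H_mul_inv (A B C : ℕ) : H A B C * (H A B C)⁻¹ = 1 :=
  PowerSeries.mul_inv_cancel _ (by rw [H_const]; exact one_ne_zero)

/-- `ρ = 1 + κ X ρ ρ'`. -/
theorem ρ_eq {A B C' : ℕ} (hA : 0 < A) (hB : 0 < B) (hC : 0 < C') :
    ρ A B C' = 1 + C (κ A B C') * (X * (ρ A B C' * ρ (B + 4) A (C' + 2))) := by
  have e1 : ρ A B C' * ρ (B + 4) A (C' + 2) =
      H (A + 4) (B + 4) (C' + 4) * (H A B C')⁻¹ := by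
    unfold ρ
    rw [H_comm (B + 4) (A + 4), H_comm (B + 4) A]
    have := H_mul_inv A (B + 4) (C' + 2)
    calc H A (B + 4) (C' + 2) * (H A B C')⁻¹ *
          (H (A + 4) (B + 4) (C' + 2 + 2) * (H A (B + 4) (C' + 2))⁻¹)
        = (H A (B + 4) (C' + 2) * (H A (B + 4) (C' + 2))⁻¹) *
          (H (A + 4) (B + 4) (C' + 2 + 2) * (H A B C')⁻¹) := by ring
      _ = _ := by rw [this]; ring
  rw [e1]
  have h2 := rel1 hA hB hC
  have h3 := H_mul_inv A B C'
  have h4 : H A (B + 4) (C' + 2) =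
      H A B C' + C (κ A B C') * (X * H (A + 4) (B + 4) (C' + 4)) := by
    rw [h2]; ring
  unfold ρ
  rw [h4, add_mul, h3]
  ring

theorem ρ_mem : ∀ n : ℕ, ∀ A B C : ℕ, 0 < A → 0 < B → Odd C → coeff n (ρ A B C) ∈ R := by
  intro n
  induction n using Nat.strong_induction_on with
  | _ n ih =>
    intro A B C' hA hB hC
    have hC0 : 0 < C' := hC.pos
    rw [ρ_eq hA hB hC0]
    cases n with
    | zero =>
      rw [map_add, coeff_C_mul, coeff_zero_X_mul, mul_zero, add_zero]
      simp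
    | succ m =>
      rw [map_add, coeff_C_mul, coeff_succ_X_mul, coeff_mul]
      refine R.add_mem ?_ (R.mul_mem (κ_mem hC) (R.sum_mem fun i hi => ?_))
      · rw [coeff_one]; simp
      · rw [Finset.HasAntidiagonal.mem_antidiagonal] at hi
        refine R.mul_mem (ih _ (by omega) _ _ _ hA hB hC) (ih _ (by omega) _ _ _ (by omega) hA ?_)
        exact hC.add_even (by decide)

theorem ρ_mem_I {A B C : ℕ} (hA : 0 < A) (hB : 0 < B) (hC : Odd C) : ρ A B C ∈ I :=
  fun n => ρ_mem n A B C hA hB hC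

/-- `F(α, β+1; γ+1) ~ F(α, β; γ)` -/
theorem E1 {A B C : ℕ} (hA : 0 < A) (hB : 0 < B) (hC : Odd C) :
    E (H A (B + 4) (C + 2)) (H A B C) := ρ_mem_I hA hB hC

/-- `F(α, β; γ+1) ~ F(α, β; γ)` -/
theorem E2 {A B C' : ℕ} (hA : 0 < A) (hB : 0 < B) (hC : Odd C') :
    E (H A B (C' + 2)) (H A B C') := by
  unfold E
  rw [rel2 hA hB hC.pos, sub_mul, H_mul_inv]
  have e1 : C (κ' A B C') * (X * H (A + 4) (B + 4) (C' + 4)) * (H A B C')⁻¹ =
      C (κ' A B C') * (X * (ρ A B C' * ρ (B + 4) A (C' + 2))) := by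
    unfold ρ
    rw [H_comm (B + 4) (A + 4), H_comm (B + 4) A]
    have := H_mul_inv A (B + 4) (C' + 2)
    calc C (κ' A B C') * (X * H (A + 4) (B + 4) (C' + 4)) * (H A B C')⁻¹
        = C (κ' A B C') * (X * ((1 : ℚ⟦X⟧) * (H (A + 4) (B + 4) (C' + 4) * (H A B C')⁻¹))) := by
          ring
      _ = C (κ' A B C') * (X * ((H A (B + 4) (C' + 2) * (H A (B + 4) (C' + 2))⁻¹) *
          (H (A + 4) (B + 4) (C' + 4) * (H A B C')⁻¹))) := by rw [this]
      _ = _ := by ring
  rw [e1]
  refine I.sub_mem I.one_mem (I.mul_mem (C_mem (κ'_mem hC)) (I.mul_mem X_mem (I.mul_mem ?_ ?_)))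
  · exact ρ_mem_I hA hB hC
  · exact ρ_mem_I (by omega) hA (hC.add_even (by decide))

/-- `F(α, β+1; γ) ~ F(α, β; γ)` -/
theorem E3 {A B C : ℕ} (hA : 0 < A) (hB : 0 < B) (hC : Odd C) :
    E (H A (B + 4) C) (H A B C) := by
  have h1 : E (H A (B + 4) (C + 2)) (H A (B + 4) C) := E2 hA (by omega) hC
  have h2 := h1.symm (H_const _ _ _) (H_const _ _ _)
  exact h2.trans (H_const _ _ _) (E1 hA hB hC)

theorem E4 {A B C : ℕ} (hA : 0 < A) (hB : 0 < B) (hC : Odd C) :
    E (H (A + 4) B C) (H A B C) := by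
  rw [H_comm (A + 4), H_comm A]
  exact E3 hB hA hC

theorem E_refl (A B C : ℕ) : E (H A B C) (H A B C) := by
  unfold E; rw [H_mul_inv]; exact I.one_mem

theorem E_all {A B C : ℕ} (hA : 0 < A) (hB : 0 < B) (hC : Odd C) (i j k : ℕ) :
    E (H (A + 4 * i) (B + 4 * j) (C + 2 * k)) (H A B C) := by
  induction i with
  | zero =>
    induction j with
    | zero =>
      induction k with
      | zero => exact E_refl A B C
      | succ k ih =>
        have : E (H (A + 4 * 0) (B + 4 * 0) (C + 2 * k + 2)) (H (A + 4 * 0) (B + 4 * 0) (C + 2 * k)) :=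
          E2 (by omega) (by omega) (hC.add_even ⟨k, by ring⟩)
        exact this.trans (H_const _ _ _) ih
    | succ j ih =>
      have : E (H (A + 4 * 0) (B + 4 * j + 4) (C + 2 * k)) (H (A + 4 * 0) (B + 4 * j) (C + 2 * k)) :=
        E3 (by omega) (by omega) (hC.add_even ⟨k, by ring⟩)
      exact this.trans (H_const _ _ _) ih
  | succ i ih =>
    have : E (H (A + 4 * i + 4) (B + 4 * j) (C + 2 * k)) (H (A + 4 * i) (B + 4 * j) (C + 2 * k)) :=
      E4 (by omega) (by omega) (hC.add_even ⟨k, by ring⟩)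
    exact this.trans (H_const _ _ _) ih

end Pool.Agent.Hyper2
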