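import Mathlib
import Pool.Agent.Hyper2.Basic

namespace Pool.Agent.Hyper2

open PowerSeries

/-- `D = F(1/4,1/4;1/2;4t)` -/
noncomputable def D0 : ℚ⟦X⟧ := H 1 1 1
/-- `N = F(3/4,3/4;3/2;4t)` -/
noncomputable def N0 : ℚ⟦X⟧ := H 3 3 3

noncomputable def p0 : ℚ⟦X⟧ := PowerSeries.mk fun n => h 1 1 1 n / (2 * n + 1)
noncomputable def q0 : ℚ⟦X⟧ := PowerSeries.mk fun n =>
  if n = 0 then 1 else h 3 3 3 (n - 1) / (2 * n)

/-- derivative -/
noncomputable def dd (f : ℚ⟦X⟧) : ℚ⟦X⟧ := PowerSeries.derivative ℚ f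

theorem coeff_dd (f : ℚ⟦X⟧) (n : ℕ) : coeff n (dd f) = coeff (n + 1) f * (n + 1) :=
  PowerSeries.coeff_derivative f n

theorem dd_mul (f g : ℚ⟦X⟧) : dd (f * g) = f * dd g + g * dd f := by
  unfold dd
  have := (PowerSeries.derivative ℚ).leibniz f g
  simp [smul_eq_mul]

theorem dd_X : dd X = 1 := PowerSeries.derivative_X

theorem dd_sub (f g : ℚ⟦X⟧) : dd (f - g) = dd f - dd g := by unfold dd; exact map_sub _ _ _

theorem coeff_D0 (n : ℕ) : coeff n D0 = h 1 1 1 n := by unfold D0 H; rw [coeff_mk]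
theorem coeff_N0 (n : ℕ) : coeff n N0 = h 3 3 3 n := by unfold N0 H; rw [coeff_mk]

/-- the constant series 4 -/
noncomputable def four : ℚ⟦X⟧ := C 4
noncomputable def two : ℚ⟦X⟧ := C 2

theorem two_eq : two = 2 := by unfold two; rfl
theorem four_eq : four = 4 := by unfold four; rfl

theorem relA : two * ((1 - four * X) * dd D0) = p0 := by
  ext n
  unfold two four
  rw [coeff_C_mul, sub_mul, one_mul, map_sub, mul_assoc, coeff_C_mul]
  unfold p0
  rw [coeff_mk]
  cases n with
  | zero =>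
    rw [coeff_zero_X_mul, coeff_dd, coeff_D0, h_succ, h_zero]
    norm_num
  | succ n =>
    rw [coeff_succ_X_mul, coeff_dd, coeff_dd, coeff_D0, coeff_D0, h_succ 1 1 1 (n + 1)]
    push_cast
    have h1 : (1 : ℚ) + 2 * (n + 1) ≠ 0 := by positivity
    have h2 : (n : ℚ) + 1 + 1 ≠ 0 := by positivity
    have h3 : 2 * ((n : ℚ) + 1) + 1 ≠ 0 := by positivity
    field_simp
    ring

theorem relB : p0 + two * (X * dd p0) = D0 := by
  ext n
  unfold two
  rw [map_add, coeff_C_mul, coeff_D0]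
  cases n with
  | zero =>
    rw [coeff_zero_X_mul]
    unfold p0
    rw [coeff_mk]
    norm_num
  | succ n =>
    rw [coeff_succ_X_mul, coeff_dd]
    unfold p0
    rw [coeff_mk]
    push_cast
    have h3 : 2 * ((n : ℚ) + 1) + 1 ≠ 0 := by positivity
    field_simp
    ring

theorem relC : (1 - four * X) * (N0 + two * (X * dd N0)) = q0 := by
  have key : ∀ n, coeff n (N0 + two * (X * dd N0)) = (2 * n + 1) * h 3 3 3 n := by
    intro n
    unfold two
    rw [map_add, coeff_C_mul, coeff_N0]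
    cases n with
    | zero => rw [coeff_zero_X_mul]; norm_num
    | succ n =>
      rw [coeff_succ_X_mul, coeff_dd, coeff_N0]
      push_cast
      ring
  ext n
  rw [sub_mul, one_mul, map_sub, key]
  unfold four
  rw [mul_assoc, coeff_C_mul]
  unfold q0
  rw [coeff_mk]
  cases n with
  | zero => rw [coeff_zero_X_mul, h_zero]; norm_num
  | succ n =>
    rw [coeff_succ_X_mul, key, if_neg (Nat.succ_ne_zero n), Nat.add_sub_cancel, h_succ]
    push_cast
    have h1 : (3 : ℚ) + 2 * n ≠ 0 := by positivity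
    have h2 : (n : ℚ) + 1 ≠ 0 := by positivity
    field_simp
    ring

theorem relD : two * dd q0 = N0 := by
  ext n
  unfold two
  rw [coeff_C_mul, coeff_dd, coeff_N0]
  unfold q0
  rw [coeff_mk, if_neg (Nat.succ_ne_zero n), Nat.add_sub_cancel]
  push_cast
  have h2 : (n : ℚ) + 1 ≠ 0 := by positivity
  field_simp

theorem const_D0 : constantCoeff D0 = 1 := H_const 1 1 1
theorem const_N0 : constantCoeff N0 = 1 := H_const 3 3 3
theorem const_q0 : constantCoeff q0 = 1 := by
  rw [← coeff_zero_eq_constantCoeff_apply]; unfold q0; rw [coeff_mk]; simp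

/-- The Wronskian identity. -/
theorem wronskian : D0 * q0 - X * (p0 * N0) = 1 := by
  apply PowerSeries.derivative.ext
  · have h2 : two * dd (D0 * q0 - X * (p0 * N0)) = 0 := by
      rw [dd_sub, dd_mul, dd_mul, dd_mul, dd_X]
      have hA := relA
      have hB := relB
      have hC := relC
      have hD := relD
      -- 2 D' q + D (2 q') - 2 p N - 2 X (p' N + p N')
      have e1 : two * (D0 * dd q0 + q0 * dd D0 -
          (X * (p0 * dd N0 + N0 * dd p0) + p0 * N0 * 1)) =
          D0 * (two * dd q0) + q0 * (two * dd D0) - two * (X * dd p0) * N0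
          - p0 * (two * (X * dd N0)) - two * (p0 * N0) := by ring
      rw [e1, hD]
      have e2 : q0 * (two * dd D0) = p0 * (N0 + two * (X * dd N0)) := by
        rw [← hC, ← hA]; ring
      rw [e2]
      have e3 : two * (X * dd p0) = D0 - p0 := by rw [← hB]; ring
      rw [e3, two_eq]
      ring
    have h3 : dd (D0 * q0 - X * (p0 * N0)) = 0 := by
      have h4 : C ((1 : ℚ) / 2) * (two * dd (D0 * q0 - X * (p0 * N0))) = 0 := by
        rw [h2, mul_zero]
      unfold two at h4
      rw [← mul_assoc, ← map_mul] at h4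
      norm_num at h4
      exact h4
    have h5 : (PowerSeries.derivative ℚ) (1 : ℚ⟦X⟧) = 0 := PowerSeries.derivative_one
    rw [h5]
    exact h3
  · rw [map_sub, map_mul, map_mul, const_D0, const_q0, constantCoeff_X]
    simp

/-! ### `D0 ^ 2 ∈ I` -/

noncomputable def α0 : ℚ⟦X⟧ := D0 * D0
noncomputable def β0 : ℚ⟦X⟧ := p0 * D0
noncomputable def γ0 : ℚ⟦X⟧ := X * (p0 * p0)

theorem rel_i : dd γ0 = β0 := by
  unfold γ0 β0
  rw [dd_mul, dd_mul, dd_X]
  conv_rhs => rw [← relB]
  rw [two_eq]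
  ring

theorem rel_ii : (1 - four * X) * dd α0 = β0 := by
  unfold α0 β0
  rw [dd_mul, ← relA, two_eq]
  ring

theorem rel_iii : (1 - four * X) * (β0 + two * (X * dd β0)) = (1 - four * X) * α0 + γ0 := by
  unfold α0 β0 γ0
  rw [dd_mul]
  have hB := relB
  have e3 : two * (X * dd p0) = D0 - p0 := by rw [← hB]; ring
  have e1 : (1 - four * X) * (p0 * D0 + two * (X * (p0 * dd D0 + D0 * dd p0))) =
      (1 - four * X) * (p0 * D0) + X * (p0 * (two * ((1 - four * X) * dd D0))) +
      (1 - four * X) * (D0 * (two * (X * dd p0))) := by ring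
  rw [e1, e3, relA]
  ring

theorem coeff_four_X (f : ℚ⟦X⟧) (n : ℕ) :
    coeff (n + 1) ((1 - four * X) * f) = coeff (n + 1) f - 4 * coeff n f := by
  unfold four
  rw [sub_mul, one_mul, map_sub, mul_assoc, coeff_C_mul, coeff_succ_X_mul]

theorem coeff_four_X_zero (f : ℚ⟦X⟧) :
    coeff 0 ((1 - four * X) * f) = coeff 0 f := by
  unfold four
  rw [sub_mul, one_mul, map_sub, mul_assoc, coeff_C_mul, coeff_zero_X_mul]
  ring

theorem coeff_two_X (f : ℚ⟦X⟧) (n : ℕ) :
    coeff n (f + two * (X * dd f)) = (2 * n + 1) * coeff n f := by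
  unfold two
  rw [map_add, coeff_C_mul]
  cases n with
  | zero => rw [coeff_zero_X_mul]; norm_num
  | succ n =>
    rw [coeff_succ_X_mul, coeff_dd]
    push_cast
    ring

theorem rec_α (n : ℕ) : (n + 1) * coeff (n + 1) α0 = 4 * n * coeff n α0 + coeff n β0 := by
  have h := congrArg (coeff n) rel_ii
  cases n with
  | zero =>
    rw [coeff_four_X_zero, coeff_dd] at h
    rw [← h]
    push_cast
    ring
  | succ n =>
    rw [coeff_four_X, coeff_dd, coeff_dd] at h
    rw [← h]
    push_cast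
    ring

theorem rec_β (n : ℕ) : (2 * n + 3) * coeff (n + 1) β0 =
    4 * (2 * n + 1) * coeff n β0 + coeff (n + 1) α0 - 4 * coeff n α0 + coeff n β0 / (n + 1) := by
  have h := congrArg (coeff (n + 1)) rel_iii
  rw [coeff_four_X, coeff_two_X, coeff_two_X, map_add, coeff_four_X] at h
  have h2 := congrArg (coeff n) rel_i
  rw [coeff_dd] at h2
  have h3 : coeff (n + 1) γ0 = coeff n β0 / (n + 1) := by
    rw [eq_div_iff (by positivity), h2]
  rw [h3] at h
  push_cast at h
  linarith

/-- The integrality of the rescaled coefficients. -/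
theorem int_ab (n : ℕ) : (∃ b : ℤ, coeff n β0 * ((2 * n + 1).factorial : ℚ) = b * 4 ^ n) ∧
    (∃ a : ℤ, 2 * coeff n α0 * ((2 * n).factorial : ℚ) = a * 4 ^ n) := by
  induction n with
  | zero =>
    refine ⟨⟨1, ?_⟩, ⟨2, ?_⟩⟩
    · unfold β0 p0
      rw [coeff_zero_eq_constantCoeff_apply, map_mul, const_D0,
        ← coeff_zero_eq_constantCoeff_apply, coeff_mk, h_zero]
      norm_num
    · unfold α0
      rw [coeff_zero_eq_constantCoeff_apply, map_mul, const_D0]
      norm_num
  | succ n ih =>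
    obtain ⟨⟨b, hb⟩, ⟨a, ha⟩⟩ := ih
    have hα := rec_α n
    have hβ := rec_β n
    have f1 : ((2 * n + 1).factorial : ℚ) = (2 * n + 1) * ((2 * n).factorial : ℚ) := by
      rw [Nat.factorial_succ]; push_cast; ring
    have f2 : ((2 * (n + 1)).factorial : ℚ) = (2 * n + 2) * (2 * n + 1) *
        ((2 * n).factorial : ℚ) := by
      have : 2 * (n + 1) = (2 * n + 1) + 1 := by ring
      rw [this, Nat.factorial_succ]; push_cast; rw [f1]; ring
    have f3 : ((2 * (n + 1) + 1).factorial : ℚ) = (2 * n + 3) * (2 * n + 2) * (2 * n + 1) *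
        ((2 * n).factorial : ℚ) := by
      rw [Nat.factorial_succ]; push_cast; rw [f2]; ring
    rw [f1] at hb
    generalize ((2 * n).factorial : ℚ) = t at *
    have hn : (n : ℚ) + 1 ≠ 0 := by positivity
    have hA : coeff (n + 1) α0 = (4 * n * coeff n α0 + coeff n β0) / (n + 1) := by
      rw [eq_div_iff hn, ← hα]; ring
    have hA2 : 2 * coeff (n + 1) α0 * ((2 * n + 2) * (2 * n + 1) * t) =
        ((2 * n * (2 * n + 1) * a + b : ℤ) : ℚ) * 4 ^ (n + 1) := by
      rw [hA]
      have e : 2 * ((4 * n * coeff n α0 + coeff n β0) / (n + 1)) * ((2 * n + 2) * (2 * n + 1) * t)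
          = 4 * (2 * n * (2 * n + 1) * (2 * coeff n α0 * t)
            + (coeff n β0 * ((2 * n + 1) * t))) := by
        field_simp
        ring
      rw [e, ha, hb]
      push_cast
      ring
    refine ⟨⟨((2 * n + 1) * (2 * n + 2) + 1) * b - (2 * n + 1) * a, ?_⟩,
      ⟨2 * n * (2 * n + 1) * a + b, ?_⟩⟩
    · rw [f3]
      have e : coeff (n + 1) β0 * ((2 * n + 3) * (2 * n + 2) * (2 * n + 1) * t) =
          (2 * n + 2) * (2 * n + 1) * t * ((2 * n + 3) * coeff (n + 1) β0) := by ring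
      rw [e, hβ]
      have e2 : (2 * n + 2) * (2 * n + 1) * t * (4 * (2 * n + 1) * coeff n β0 +
          coeff (n + 1) α0 - 4 * coeff n α0 + coeff n β0 / (n + 1)) =
          4 * ((2 * n + 2) * (2 * n + 1)) * (coeff n β0 * ((2 * n + 1) * t)) +
          (1 / 2) * (2 * coeff (n + 1) α0 * ((2 * n + 2) * (2 * n + 1) * t)) -
          4 * (n + 1) * (2 * n + 1) * (2 * coeff n α0 * t) +
          2 * (coeff n β0 * ((2 * n + 1) * t)) := by
        field_simp
      rw [e2, hb, ha, hA2]
      push_cast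
      ring
    · rw [f2]
      exact hA2

theorem four_pow_div_mem {n : ℕ} (hn : n ≠ 0) :
    (4 : ℚ) ^ n / (2 * ((2 * n).factorial : ℚ)) ∈ R := by
  obtain ⟨k, m, hm, hk⟩ := Nat.exists_eq_two_pow_mul_odd (Nat.factorial_ne_zero (2 * n))
  have hlt : k < 2 * n := by
    have h1 := Nat.emultiplicity_two_factorial_lt (n := 2 * n) (by omega)
    have h2 : 2 ^ k ∣ (2 * n).factorial := ⟨m, hk⟩
    have h3 : (k : ℕ∞) ≤ emultiplicity 2 (2 * n).factorial := le_emultiplicity_of_pow_dvd h2
    have h4 := lt_of_le_of_lt h3 h1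
    exact_mod_cast h4
  have hm0 : (m : ℚ) ≠ 0 := by
    have := hm.pos
    positivity
  have e : (4 : ℚ) ^ n / (2 * ((2 * n).factorial : ℚ)) =
      (((2 : ℤ) ^ (2 * n - 1 - k) : ℤ) : ℚ) / ((m : ℤ) : ℚ) := by
    rw [hk]
    push_cast
    rw [div_eq_div_iff (by positivity) hm0]
    have e4 : (4 : ℚ) ^ n = 2 ^ (2 * n) := by
      rw [pow_mul]; norm_num
    have e5 : (2 : ℚ) ^ (2 * n) = 2 ^ (2 * n - 1 - k) * (2 * 2 ^ k) := by
      rw [← pow_succ', ← pow_add]; congr 1; omega
    rw [e4, e5]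
    ring
  rw [e]
  exact div_mem (by exact_mod_cast hm)

theorem α0_mem : α0 ∈ I := by
  intro n
  by_cases hn : n = 0
  · subst hn
    unfold α0
    rw [coeff_zero_eq_constantCoeff_apply, map_mul, const_D0, mul_one]
    exact R.one_mem
  · obtain ⟨_, ⟨a, ha⟩⟩ := int_ab n
    have hf : ((2 * n).factorial : ℚ) ≠ 0 := by
      exact_mod_cast Nat.factorial_ne_zero (2 * n)
    have e : coeff n α0 = a * ((4 : ℚ) ^ n / (2 * ((2 * n).factorial : ℚ))) := by
      rw [mul_div_assoc', eq_div_iff (by positivity), ← ha]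
      ring
    rw [e]
    exact R.mul_mem (int_mem a) (four_pow_div_mem hn)

/-- `N0 / D0` has all coefficients in `R`. -/
theorem E_base : E N0 D0 := by
  unfold E
  set Q := N0 * D0⁻¹ with hQ
  have hDinv : D0⁻¹ * D0 = 1 :=
    PowerSeries.inv_mul_cancel _ (by rw [const_D0]; exact one_ne_zero)
  have hDQ : D0 * Q = N0 := by
    rw [hQ]
    calc D0 * (N0 * D0⁻¹) = N0 * (D0⁻¹ * D0) := by ring
      _ = N0 := by rw [hDinv, mul_one]
  have hdN : dd N0 = D0 * dd Q + Q * dd D0 := by rw [← dd_mul, hDQ]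
  have key : ((1 - four * X) * α0) * (Q + two * (X * dd Q)) = 1 := by
    refine Eq.trans ?_ wronskian
    unfold α0
    have e1 : (1 - four * X) * (D0 * D0) * (Q + two * (X * dd Q)) =
        D0 * ((1 - four * X) * (D0 * Q + two * (X * (D0 * dd Q + Q * dd D0)))) -
        X * ((two * ((1 - four * X) * dd D0)) * (D0 * Q)) := by ring
    rw [e1, ← hdN, hDQ, relC, relA]
  have hG1 : (1 - four * X) * α0 ∈ I := by
    refine I.mul_mem (I.sub_mem I.one_mem (I.mul_mem ?_ X_mem)) α0_mem
    unfold four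
    exact C_mem (by exact_mod_cast int_mem 4)
  have hG2 : constantCoeff ((1 - four * X) * α0) = 1 := by
    unfold α0
    rw [map_mul, map_sub, map_mul, map_mul, const_D0, constantCoeff_X]
    simp
  have hinv : Q + two * (X * dd Q) = ((1 - four * X) * α0)⁻¹ := by
    symm
    rw [PowerSeries.inv_eq_iff_mul_eq_one (by rw [hG2]; exact one_ne_zero)]
    rw [mul_comm]
    exact key
  have hmem : Q + two * (X * dd Q) ∈ I := by
    rw [hinv]; exact inv_mem hG1 hG2
  intro n
  have h1 := hmem n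
  rw [coeff_two_X] at h1
  have h2 : coeff n Q = ((2 * n + 1) * coeff n Q) * (((1 : ℤ) : ℚ) / ((2 * n + 1 : ℤ) : ℚ)) := by
    push_cast
    have : (2 : ℚ) * n + 1 ≠ 0 := by positivity
    field_simp
  rw [h2]
  exact R.mul_mem h1 (div_mem ⟨n, rfl⟩)

/-- All quotients are 2-adically integral. -/
theorem main (a b c d e f : ℕ) :
    E (H (3 + 4 * a) (3 + 4 * b) (3 + 2 * c)) (H (1 + 4 * d) (1 + 4 * e) (1 + 2 * f)) := by
  have h1 : E (H (3 + 4 * a) (3 + 4 * b) (3 + 2 * c)) N0 :=
    E_all (by norm_num) (by norm_num) (by decide) a b c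
  have h2 : E (H (1 + 4 * d) (1 + 4 * e) (1 + 2 * f)) D0 :=
    E_all (by norm_num) (by norm_num) (by decide) d e f
  exact (h1.trans const_N0 E_base).trans const_D0 (h2.symm (H_const _ _ _) const_D0)

end Pool.Agent.Hyper2
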